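import Pool.Agent.Helper99.AA.Stmts
import Pool.Agent.Helper40.Tauber1

set_option autoImplicit false

/-!
MP_1f31dd_nt, project AA, row TB: a Tauberian theorem for slowly oscillating functions (adapted from
`Pool.Agent.Helper40.Tauber1`).
-/

open Set Filter Topology MeasureTheory Real
open scoped FourierTransform SchwartzMap

namespace Pool.Agent.Helper91.AA

open Pool.Agent.Helper40.Tauber

theorem tauber_slow (B : ℝ → ℂ) (hBm : AEStronglyMeasurable B volume)
    (hB0 : ∀ u < 0, B u = 0) (hB1 : ∀ u, ‖B u‖ ≤ 1)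
    (hslow : ∀ ε : ℝ, 0 < ε → ∃ δ : ℝ, 0 < δ ∧ ∃ U : ℝ, ∀ u v, U ≤ u → u ≤ v → v ≤ u + δ →
      ‖B v - B u‖ ≤ ε) (G0 : ℝ → ℂ)
    (h1 : ∀ y, Tendsto (fun σ : ℝ => 𝓕 (fun u => B u * (Real.exp (-σ * u) : ℂ)) y) (𝓝[>] 0)
      (𝓝 (G0 y)))
    (h2 : ∀ R : ℝ, ∃ C : ℝ, ∀ σ ∈ Ioc (0 : ℝ) 1, ∀ y, |y| ≤ R →
      ‖𝓕 (fun u => B u * (Real.exp (-σ * u) : ℂ)) y‖ ≤ C) :
    Tendsto B atTop (𝓝 0) := by
  obtain ⟨φ, hφc, hφs, hFi, hF1⟩ := exists_kernel
  -- the smoothed averages tend to zero
  have hJ : ∀ l : ℝ, 0 < l → Tendsto (fun v => ∫ w, B (v + w / l) * 𝓕 φ w) atTop (𝓝 0) := by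
    intro l hl
    let φl : ℝ → ℂ := fun y => φ (y / l)
    have hφlc : Continuous φl := by fun_prop
    have hφls : HasCompactSupport φl := by
      have := hφs.comp_homeomorph (Homeomorph.mulRight₀ (l⁻¹) (inv_ne_zero hl.ne'))
      exact this
    have hFl : 𝓕 φl = fun w => (l : ℂ) * 𝓕 φ (l * w) := by
      funext w; exact fourier_scale φ l hl w
    have hFli : Integrable (𝓕 φl) := by
      rw [hFl]
      exact (hFi.comp_mul_left' hl.ne').const_mul _
    have key := limit_identity B hBm hB0 hB1 G0 h1 h2 φl hφlc hφls hFli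
    have hRL : Tendsto (fun v : ℝ => ∫ y, G0 y * (φl y * 𝐞 (v * y))) atTop (𝓝 0) := by
      have h3 := Real.tendsto_integral_exp_smul_cocompact (fun y => G0 y * φl y)
      have h4 : Tendsto (fun v : ℝ => -v) atTop (cocompact ℝ) :=
        tendsto_neg_atTop_atBot.mono_right atBot_le_cocompact
      have h5 := h3.comp h4
      refine h5.congr fun v => ?_
      refine integral_congr_ae (Eventually.of_forall fun y => ?_)
      simp only [Circle.smul_def, smul_eq_mul]
      rw [show -(y * -v) = v * y by ring]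
      ring
    refine hRL.congr fun v => ?_
    rw [key v, hFl]
    -- change of variables
    have e1 : ∫ u, B u * ((l : ℂ) * 𝓕 φ (l * (u - v))) =
        ∫ u, B (u + v) * ((l : ℂ) * 𝓕 φ (l * u)) := by
      rw [← integral_add_right_eq_self (fun u => B u * ((l : ℂ) * 𝓕 φ (l * (u - v)))) v]
      simp
    have e2 := Measure.integral_comp_mul_left (fun w => B (v + w / l) * 𝓕 φ w) l
    have e3 : (fun x => B (v + l * x / l) * 𝓕 φ (l * x)) = fun x => B (x + v) * 𝓕 φ (l * x) := by
      funext x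
      rw [mul_div_cancel_left₀ _ hl.ne', add_comm]
    rw [e3] at e2
    rw [e1]
    have e4 : ∫ u, B (u + v) * ((l : ℂ) * 𝓕 φ (l * u)) = (l : ℂ) * ∫ u, B (u + v) * 𝓕 φ (l * u) := by
      rw [← integral_const_mul]
      refine integral_congr_ae (Eventually.of_forall fun y => ?_)
      simp only
      ring
    rw [e4, e2, abs_of_pos (inv_pos.2 hl), Complex.real_smul, ← mul_assoc]
    push_cast
    rw [mul_inv_cancel₀ (by exact_mod_cast hl.ne'), one_mul]
  set C := ∫ w, ‖𝓕 φ w‖ with hCdef
  have hC0 : 0 ≤ C := integral_nonneg fun _ => norm_nonneg _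
  have htail : Tendsto (fun n : ℕ => ∫ w in {w : ℝ | (n : ℝ) < |w|}, ‖𝓕 φ w‖) atTop (𝓝 0) := by
    have h3 := tendsto_setIntegral_of_antitone (μ := volume) (f := fun w => ‖𝓕 φ w‖)
      (s := fun n : ℕ => {w : ℝ | (n : ℝ) < |w|})
      (fun n => measurableSet_lt measurable_const (by fun_prop)) (by
        intro a b hab w hw
        have : (a : ℝ) ≤ b := by exact_mod_cast hab
        exact lt_of_le_of_lt this hw) ⟨0, hFi.norm.integrableOn⟩
    have h4 : (⋂ n : ℕ, {w : ℝ | (n : ℝ) < |w|}) = ∅ := by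
      rw [eq_empty_iff_forall_notMem]
      intro w hw
      obtain ⟨n, hn⟩ := exists_nat_gt |w|
      have := mem_iInter.1 hw n
      simp only [mem_ofPred_eq] at this
      linarith
    rw [h4] at h3
    simpa using h3
  rw [Metric.tendsto_atTop]
  intro ε hε
  obtain ⟨M, hM⟩ := (htail.eventually (gt_mem_nhds (show (0 : ℝ) < ε / 8 by positivity))).exists
  have hM0 : (0 : ℝ) ≤ M := Nat.cast_nonneg M
  obtain ⟨δ, hδ, U, hU⟩ := hslow (ε / (8 * (C + 1))) (by positivity)
  have hl0 : 0 < (M : ℝ) / δ + 1 := by positivity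
  obtain ⟨l, hl0, hl⟩ : ∃ l : ℝ, 0 < l ∧ (M : ℝ) / l ≤ δ := by
    refine ⟨(M : ℝ) / δ + 1, hl0, ?_⟩
    rw [div_le_iff₀ hl0]
    have : δ * ((M : ℝ) / δ + 1) = M + δ := by
      field_simp
    rw [this]; linarith
  obtain ⟨V1, hV1⟩ := Metric.tendsto_atTop.1 (hJ l hl0) (ε / 4) (by positivity)
  refine ⟨max V1 (U + M / l), fun v hv => ?_⟩
  have hv1 : V1 ≤ v := (le_max_left _ _).trans hv
  have hv3 : U + M / l ≤ v := (le_max_right _ _).trans hv
  have hMl : 0 ≤ (M : ℝ) / l := by positivity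
  have hpt : ∀ w : ℝ, ‖B v - B (v + w / l)‖ ≤ ε / (8 * (C + 1)) +
      2 * ({w : ℝ | (M : ℝ) < |w|}).indicator (fun _ => (1 : ℝ)) w := by
    intro w
    by_cases hw : (M : ℝ) < |w|
    · rw [indicator_of_mem (by exact hw)]
      have : ‖B v - B (v + w / l)‖ ≤ 2 := (norm_sub_le _ _).trans (by
        have := hB1 v; have := hB1 (v + w / l); linarith)
      have h3 : 0 ≤ ε / (8 * (C + 1)) := by positivity
      linarith
    · rw [indicator_of_notMem (by simpa using hw)]
      push Not at hw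
      obtain ⟨hw1, hw2⟩ := abs_le.1 hw
      have h4 : -(M / l) ≤ w / l := by
        rw [← neg_div]; gcongr
      have h5 : w / l ≤ M / l := by gcongr
      rcases le_total 0 (w / l) with hwl | hwl
      · rw [norm_sub_rev]
        have := hU v (v + w / l) (by linarith) (by linarith) (by linarith)
        linarith
      · have := hU (v + w / l) v (by linarith) (by linarith) (by linarith)
        linarith
  have hBi : Integrable (fun w => B (v + w / l) * 𝓕 φ w) := by
    refine hFi.norm.mono' ?_ ?_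
    · refine AEStronglyMeasurable.mul ?_ hFi.aestronglyMeasurable
      have hq : Measure.QuasiMeasurePreserving (fun w : ℝ => v + w / l) volume volume := by
        have q1 : Measure.QuasiMeasurePreserving (fun w : ℝ => v + w) volume volume :=
          (measurePreserving_add_left volume v).quasiMeasurePreserving
        have q2 : Measure.QuasiMeasurePreserving (fun w : ℝ => w / l) volume volume := by
          have := (Homeomorph.mulRight₀ (l⁻¹) (inv_ne_zero hl0.ne'))
          refine ⟨by fun_prop, ?_⟩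
          have h6 := Real.map_volume_mul_right (a := l⁻¹) (inv_ne_zero hl0.ne')
          have h7 : (fun w : ℝ => w / l) = (· * l⁻¹) := by
            funext w; rw [div_eq_mul_inv]
          rw [h7, h6]
          exact Measure.smul_absolutelyContinuous
        exact q1.comp q2
      exact hBm.comp_quasiMeasurePreserving hq
    · refine Eventually.of_forall fun w => ?_
      rw [norm_mul]
      exact mul_le_of_le_one_left (norm_nonneg _) (hB1 _)
  have hdiff : ‖B v - ∫ w, B (v + w / l) * 𝓕 φ w‖ ≤ (ε / (8 * (C + 1))) * C +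
      2 * (ε / 8) := by
    have e1 : B v = ∫ w, B v * 𝓕 φ w := by rw [integral_const_mul, hF1, mul_one]
    rw [e1, ← integral_sub (hFi.const_mul _) hBi]
    refine (norm_integral_le_integral_norm _).trans ?_
    have hS : MeasurableSet {w : ℝ | (M : ℝ) < |w|} :=
      measurableSet_lt measurable_const (by fun_prop)
    have hind : Integrable (fun w => ({w : ℝ | (M : ℝ) < |w|}).indicator (fun w => ‖𝓕 φ w‖) w) :=
      hFi.norm.indicator hS
    calc ∫ w, ‖B v * 𝓕 φ w - B (v + w / l) * 𝓕 φ w‖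
        ≤ ∫ w, ((ε / (8 * (C + 1))) * ‖𝓕 φ w‖ +
          2 * ({w : ℝ | (M : ℝ) < |w|}).indicator (fun w => ‖𝓕 φ w‖) w) := by
          refine integral_mono (((hFi.const_mul _).sub hBi).norm)
            ((hFi.norm.const_mul _).add (hind.const_mul _)) fun w => ?_
          simp only
          rw [← sub_mul, norm_mul]
          have h6 := hpt w
          by_cases hw : w ∈ {w : ℝ | (M : ℝ) < |w|}
          · rw [indicator_of_mem hw] at h6 ⊢
            calc _ ≤ ((ε / (8 * (C + 1))) + 2 * 1) * ‖𝓕 φ w‖ := by gcongr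
              _ = _ := by ring
          · rw [indicator_of_notMem hw] at h6 ⊢
            calc _ ≤ ((ε / (8 * (C + 1))) + 2 * 0) * ‖𝓕 φ w‖ := by gcongr
              _ = _ := by ring
      _ = (ε / (8 * (C + 1))) * C + 2 * ∫ w in {w : ℝ | (M : ℝ) < |w|}, ‖𝓕 φ w‖ := by
          rw [integral_add (hFi.norm.const_mul _) (hind.const_mul _), integral_const_mul,
            integral_const_mul, integral_indicator hS]
      _ ≤ _ := by
          have := hM.le
          linarith
  rw [dist_zero_right]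
  have h7 := hV1 v hv1
  rw [dist_zero_right] at h7
  have h8 : ε / (8 * (C + 1)) * C ≤ ε / 8 := by
    rw [div_mul_eq_mul_div, div_le_div_iff₀ (by positivity) (by positivity)]
    nlinarith
  calc ‖B v‖ = ‖(B v - ∫ w, B (v + w / l) * 𝓕 φ w) + ∫ w, B (v + w / l) * 𝓕 φ w‖ := by
        congr 1; ring
    _ ≤ ‖B v - ∫ w, B (v + w / l) * 𝓕 φ w‖ + ‖∫ w, B (v + w / l) * 𝓕 φ w‖ := norm_add_le _ _
    _ ≤ ((ε / (8 * (C + 1))) * C + 2 * (ε / 8)) + ‖∫ w, B (v + w / l) * 𝓕 φ w‖ := by
        gcongr
    _ < ε := by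
        linarith

theorem st_TB : Pool.Agent.Helper99.AA.ST_TB := by
  intro B K G0 hBm hB0 hBK hslow h1 h2
  rcases le_or_gt K 0 with hK | hK
  · have hB : B = fun _ => 0 := by
      funext u
      have := (hBK u).trans hK
      exact norm_le_zero_iff.1 this
    rw [hB]
    exact tendsto_const_nhds
  · have hKC : (K : ℂ) ≠ 0 := by exact_mod_cast hK.ne'
    let B' : ℝ → ℂ := fun u => (K : ℂ)⁻¹ * B u
    have hKn : ‖(K : ℂ)⁻¹‖ = K⁻¹ := by
      rw [norm_inv, Complex.norm_real, Real.norm_of_nonneg hK.le]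
    have hF : ∀ (σ y : ℝ), 𝓕 (fun u => B' u * (Real.exp (-σ * u) : ℂ)) y =
        (K : ℂ)⁻¹ * 𝓕 (fun u => B u * (Real.exp (-σ * u) : ℂ)) y := by
      intro σ y
      rw [Real.fourier_real_eq, Real.fourier_real_eq, ← integral_const_mul]
      refine integral_congr_ae (Eventually.of_forall fun u => ?_)
      simp only [B', Circle.smul_def, smul_eq_mul]
      ring
    have hB' : Tendsto B' atTop (𝓝 0) := by
      refine tauber_slow B' (hBm.const_mul _) (fun u hu => ?_) (fun u => ?_) ?_
        (fun y => (K : ℂ)⁻¹ * G0 y) (fun y => ?_) (fun R => ?_)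
      · simp only [B', hB0 u hu, mul_zero]
      · simp only [B']
        rw [norm_mul, hKn, inv_mul_le_iff₀ hK, mul_one]
        exact hBK u
      · intro ε hε
        obtain ⟨δ, hδ, U, hU⟩ := hslow (K * ε) (by positivity)
        refine ⟨δ, hδ, U, fun u v hu huv hv => ?_⟩
        simp only [B']
        rw [← mul_sub, norm_mul, hKn, inv_mul_le_iff₀ hK]
        exact hU u v hu huv hv
      · simp only [hF]
        exact (h1 y).const_mul _
      · obtain ⟨C, hC⟩ := h2 R
        refine ⟨K⁻¹ * C, fun σ hσ y hy => ?_⟩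
        rw [hF, norm_mul, hKn]
        exact mul_le_mul_of_nonneg_left (hC σ hσ y hy) (by positivity)
    have h3 := hB'.const_mul (K : ℂ)
    rw [mul_zero] at h3
    refine h3.congr fun u => ?_
    simp only [B']
    rw [← mul_assoc, mul_inv_cancel₀ hKC, one_mul]

end Pool.Agent.Helper91.AA
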