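import Pool.Agent.Helper99.AA.Basic

set_option autoImplicit false

/-!
MP_1f31dd_nt, project AA, row VA: the variance, from the three ranges V1, V2, V3.
-/

open Finset MeasureTheory
open scoped BigOperators

namespace Pool.Agent.Helper91.AA

open Pool.Agent.Helper40.MR Pool.Agent.Helper99.AA

theorem DP_continuous (s : Finset ℕ) (c : ℕ → ℂ) : Continuous (DP s c) := by
  unfold DP
  exact continuous_finsetSum _ fun n _ => continuous_const.mul (nit_continuous n)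

theorem DP_norm_le (s : Finset ℕ) (c : ℕ → ℂ) (t : ℝ) : ‖DP s c t‖ ≤ ∑ n ∈ s, ‖c n / n‖ := by
  unfold DP
  refine (norm_sum_le _ _).trans (Finset.sum_le_sum fun n _ => ?_)
  rw [norm_mul, norm_nit, mul_one]

theorem three_pieces (f : ℝ → ℝ) (hf : Continuous f) (hf0 : ∀ t, 0 ≤ f t) (B : ℝ)
    (hB : ∀ t, f t ≤ B) (δ κ T L : ℝ) :
    ∫ t : ℝ, f t * min (min (δ ^ 2) (1 / (1 + t ^ 2))) (δ ^ 2 * κ ^ 2 * (1 + t ^ 2)) ≤
      δ ^ 2 * κ ^ 2 * (1 + T ^ 2) * (∫ t in {t : ℝ | |t| ≤ T}, f t) +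
      δ ^ 2 * (∫ t in {t : ℝ | T ≤ |t| ∧ |t| ≤ L}, f t) +
      ∫ t in {t : ℝ | L < |t|}, f t * (1 / (1 + t ^ 2)) := by
  have m1 : MeasurableSet {t : ℝ | |t| ≤ T} := measurableSet_le (by fun_prop) measurable_const
  have m2 : MeasurableSet {t : ℝ | T ≤ |t| ∧ |t| ≤ L} := by
    have n1 : MeasurableSet {t : ℝ | T ≤ |t|} := measurableSet_le measurable_const (by fun_prop)
    have n2 : MeasurableSet {t : ℝ | |t| ≤ L} := measurableSet_le (by fun_prop) measurable_const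
    exact n1.inter n2
  have m3 : MeasurableSet {t : ℝ | L < |t|} := measurableSet_lt measurable_const (by fun_prop)
  have i1 : IntegrableOn f {t : ℝ | |t| ≤ T} :=
    (hf.integrableOn_Icc (a := -T) (b := T)).mono_set fun t ht => abs_le.1 ht
  have i2 : IntegrableOn f {t : ℝ | T ≤ |t| ∧ |t| ≤ L} :=
    (hf.integrableOn_Icc (a := -L) (b := L)).mono_set fun t ht => abs_le.1 ht.2
  have hB0 : 0 ≤ B := (hf0 0).trans (hB 0)
  have i3 : Integrable (fun t : ℝ => f t * (1 / (1 + t ^ 2))) := by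
    refine (integrable_inv_one_add_sq.const_mul B).mono' ?_ (Filter.Eventually.of_forall fun t => ?_)
    · refine Continuous.aestronglyMeasurable (hf.mul (continuous_const.div (by fun_prop) fun t => ?_))
      positivity
    · rw [Real.norm_of_nonneg (mul_nonneg (hf0 t) (by positivity)), one_div]
      exact mul_le_mul_of_nonneg_right (hB t) (by positivity)
  have i1' : IntegrableOn (fun t => δ ^ 2 * κ ^ 2 * (1 + T ^ 2) * f t) {t : ℝ | |t| ≤ T} :=
    Integrable.const_mul i1 _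
  have i2' : IntegrableOn (fun t => δ ^ 2 * f t) {t : ℝ | T ≤ |t| ∧ |t| ≤ L} :=
    Integrable.const_mul i2 _
  have j1 := i1'.integrable_indicator m1
  have j2 := i2'.integrable_indicator m2
  have j3 := i3.integrableOn.integrable_indicator m3
  have key : ∫ t : ℝ, f t * min (min (δ ^ 2) (1 / (1 + t ^ 2))) (δ ^ 2 * κ ^ 2 * (1 + t ^ 2)) ≤
      ∫ t : ℝ, (({t : ℝ | |t| ≤ T}.indicator fun t => δ ^ 2 * κ ^ 2 * (1 + T ^ 2) * f t) t +
        ({t : ℝ | T ≤ |t| ∧ |t| ≤ L}.indicator fun t => δ ^ 2 * f t) t) +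
        ({t : ℝ | L < |t|}.indicator fun t => f t * (1 / (1 + t ^ 2))) t := by
    refine integral_mono_of_nonneg (Filter.Eventually.of_forall fun t => ?_) ((j1.add j2).add j3)
      (Filter.Eventually.of_forall fun t => ?_)
    · exact mul_nonneg (hf0 t) (le_min (le_min (by positivity) (by positivity)) (by positivity))
    · have g1 : 0 ≤ ({t : ℝ | |t| ≤ T}.indicator fun t => δ ^ 2 * κ ^ 2 * (1 + T ^ 2) * f t) t :=
        Set.indicator_nonneg (fun t _ => mul_nonneg (by positivity) (hf0 t)) t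
      have g2 : 0 ≤ ({t : ℝ | T ≤ |t| ∧ |t| ≤ L}.indicator fun t => δ ^ 2 * f t) t :=
        Set.indicator_nonneg (fun t _ => mul_nonneg (by positivity) (hf0 t)) t
      have g3 : 0 ≤ ({t : ℝ | L < |t|}.indicator fun t => f t * (1 / (1 + t ^ 2))) t :=
        Set.indicator_nonneg (fun t _ => mul_nonneg (hf0 t) (by positivity)) t
      simp only
      by_cases h1 : |t| ≤ T
      · have e1 : ({t : ℝ | |t| ≤ T}.indicator fun t => δ ^ 2 * κ ^ 2 * (1 + T ^ 2) * f t) t =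
            δ ^ 2 * κ ^ 2 * (1 + T ^ 2) * f t := Set.indicator_of_mem (by exact h1) _
        have h2 : t ^ 2 ≤ T ^ 2 := sq_le_sq' (by linarith [(abs_le.1 h1).1]) (abs_le.1 h1).2
        have h3 : f t * min (min (δ ^ 2) (1 / (1 + t ^ 2))) (δ ^ 2 * κ ^ 2 * (1 + t ^ 2)) ≤
            δ ^ 2 * κ ^ 2 * (1 + T ^ 2) * f t := by
          rw [mul_comm (f t)]
          refine mul_le_mul_of_nonneg_right ((min_le_right _ _).trans ?_) (hf0 t)
          exact mul_le_mul_of_nonneg_left (by linarith) (by positivity)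
        rw [e1]
        linarith
      · by_cases h2 : |t| ≤ L
        · have e2 : ({t : ℝ | T ≤ |t| ∧ |t| ≤ L}.indicator fun t => δ ^ 2 * f t) t =
              δ ^ 2 * f t := Set.indicator_of_mem (by exact ⟨(not_le.1 h1).le, h2⟩) _
          have h3 : f t * min (min (δ ^ 2) (1 / (1 + t ^ 2))) (δ ^ 2 * κ ^ 2 * (1 + t ^ 2)) ≤
              δ ^ 2 * f t := by
            rw [mul_comm (f t)]
            exact mul_le_mul_of_nonneg_right ((min_le_left _ _).trans (min_le_left _ _)) (hf0 t)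
          rw [e2]
          linarith
        · have e3 : ({t : ℝ | L < |t|}.indicator fun t => f t * (1 / (1 + t ^ 2))) t =
              f t * (1 / (1 + t ^ 2)) := Set.indicator_of_mem (by exact not_le.1 h2) _
          have h3 : f t * min (min (δ ^ 2) (1 / (1 + t ^ 2))) (δ ^ 2 * κ ^ 2 * (1 + t ^ 2)) ≤
              f t * (1 / (1 + t ^ 2)) :=
            mul_le_mul_of_nonneg_left ((min_le_left _ _).trans (min_le_right _ _)) (hf0 t)
          rw [e3]
          linarith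
  refine key.trans (le_of_eq ?_)
  have j12 : Integrable (fun t =>
      ({t : ℝ | |t| ≤ T}.indicator fun t => δ ^ 2 * κ ^ 2 * (1 + T ^ 2) * f t) t +
      ({t : ℝ | T ≤ |t| ∧ |t| ≤ L}.indicator fun t => δ ^ 2 * f t) t) := j1.add j2
  rw [integral_add j12 j3, integral_add j1 j2, integral_indicator m1, integral_indicator m2,
    integral_indicator m3, integral_const_mul, integral_const_mul]

theorem st_VA (h1 : ST_V1) (h2 : ST_V2) (h3 : ST_V3) : ST_VA := by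
  intro η c₀ ε hη hη1 hc₀ hε
  obtain ⟨C₂, hC₂, h2⟩ := h2
  obtain ⟨C₃, hC₃, h3⟩ := h3
  obtain ⟨T, hT, M₁, h1⟩ := h1 η (ε / 3) hη hη1 (by positivity)
  obtain ⟨M₂, h2⟩ := h2 η T hη hη1 hT
  obtain ⟨M₃, h3⟩ := h3 η hη hη1
  have hT0 : 0 < T := by linarith
  -- the choice of δ₂
  obtain ⟨κ, hκ, hκη, hκC⟩ : ∃ κ : ℝ, 0 < κ ∧ κ ≤ η / 4 ∧ κ ^ 2 * (1 + T ^ 2) * C₂ ≤ ε / 3 := by
    have hD : 0 < (1 + T ^ 2) * C₂ := by positivity
    refine ⟨min (η / 4) (Real.sqrt (ε / 3 / ((1 + T ^ 2) * C₂))),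
      lt_min (by positivity) (Real.sqrt_pos.2 (by positivity)), min_le_left _ _, ?_⟩
    have h4 : (min (η / 4) (Real.sqrt (ε / 3 / ((1 + T ^ 2) * C₂)))) ^ 2 ≤
        ε / 3 / ((1 + T ^ 2) * C₂) := by
      calc (min (η / 4) (Real.sqrt (ε / 3 / ((1 + T ^ 2) * C₂)))) ^ 2
          ≤ (Real.sqrt (ε / 3 / ((1 + T ^ 2) * C₂))) ^ 2 :=
            pow_le_pow_left₀ (le_min (by positivity) (Real.sqrt_nonneg _)) (min_le_right _ _) 2
        _ = _ := Real.sq_sqrt (by positivity)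
    rw [mul_assoc]
    exact (le_div_iff₀ hD).1 h4
  -- large M
  obtain ⟨M₄, hM₄⟩ := Filter.eventually_atTop.1
    (Real.tendsto_log_atTop.eventually_ge_atTop (max 1 (Real.sqrt (3 * C₃ / (ε * c₀ ^ 2)))))
  refine ⟨κ, hκ, hκη, max (max M₁ M₂) (max M₃ (max M₄ 2)), fun M hM => ?_⟩
  have hM1 : M₁ ≤ M := (le_max_left _ _).trans ((le_max_left _ _).trans hM)
  have hM2 : M₂ ≤ M := (le_max_right _ _).trans ((le_max_left _ _).trans hM)
  have hM3 : M₃ ≤ M := (le_max_left _ _).trans ((le_max_right _ _).trans hM)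
  have hM4 : M₄ ≤ M := (le_max_left _ _).trans ((le_max_right _ _).trans ((le_max_right _ _).trans hM))
  have hM5 : 2 ≤ M := (le_max_right _ _).trans ((le_max_right _ _).trans ((le_max_right _ _).trans hM))
  have hM0 : 0 < M := by linarith
  have hl := hM₄ M hM4
  have hl1 : 1 ≤ Real.log M := (le_max_left _ _).trans hl
  have hl2 : 3 * C₃ / (ε * c₀ ^ 2) ≤ Real.log M ^ 2 := by
    have h5 : Real.sqrt (3 * C₃ / (ε * c₀ ^ 2)) ≤ Real.log M := (le_max_right _ _).trans hl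
    exact (Real.sqrt_le_left (by linarith)).1 h5
  have hl0 : 0 < Real.log M := by linarith
  set D := DP (Icc 1 ⌊4 * M ^ 2⌋₊) (co η M) with hD
  have hDc : Continuous fun t => ‖D t‖ ^ 2 := (DP_continuous _ _).norm.pow 2
  have key := three_pieces (fun t => ‖D t‖ ^ 2) hDc (fun t => by positivity)
    ((∑ n ∈ Icc 1 ⌊4 * M ^ 2⌋₊, ‖co η M n / n‖) ^ 2)
    (fun t => pow_le_pow_left₀ (norm_nonneg _) (DP_norm_le _ _ t) 2) (c₀ / M) κ T
    (M * Real.log M ^ 3)
  refine key.trans ?_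
  have k1 : (c₀ / M) ^ 2 * κ ^ 2 * (1 + T ^ 2) * (∫ t in {t : ℝ | |t| ≤ T}, ‖D t‖ ^ 2) ≤
      (c₀ / M) ^ 2 * (ε / 3) / Real.log M ^ 4 := by
    calc (c₀ / M) ^ 2 * κ ^ 2 * (1 + T ^ 2) * (∫ t in {t : ℝ | |t| ≤ T}, ‖D t‖ ^ 2)
        ≤ (c₀ / M) ^ 2 * κ ^ 2 * (1 + T ^ 2) * (C₂ / Real.log M ^ 4) :=
          mul_le_mul_of_nonneg_left (h2 M hM2) (by positivity)
      _ = (c₀ / M) ^ 2 * (κ ^ 2 * (1 + T ^ 2) * C₂) / Real.log M ^ 4 := by ring
      _ ≤ _ := by gcongr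
  have k2 : (c₀ / M) ^ 2 * (∫ t in {t : ℝ | T ≤ |t| ∧ |t| ≤ M * Real.log M ^ 3}, ‖D t‖ ^ 2) ≤
      (c₀ / M) ^ 2 * (ε / 3) / Real.log M ^ 4 := by
    rw [mul_div_assoc]
    exact mul_le_mul_of_nonneg_left (h1 M hM1) (by positivity)
  have k3 : (∫ t in {t : ℝ | M * Real.log M ^ 3 < |t|}, ‖D t‖ ^ 2 * (1 / (1 + t ^ 2))) ≤
      (c₀ / M) ^ 2 * (ε / 3) / Real.log M ^ 4 := by
    refine (h3 M hM3).trans ?_
    rw [div_pow, div_mul_eq_mul_div, div_div, div_le_div_iff₀ (by positivity) (by positivity)]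
    have h6 : 3 * C₃ ≤ Real.log M ^ 2 * (ε * c₀ ^ 2) := (div_le_iff₀ (by positivity)).1 hl2
    have h7 : C₃ ≤ c₀ ^ 2 * (ε / 3) * Real.log M ^ 2 := by linarith
    calc C₃ * (M ^ 2 * Real.log M ^ 4) ≤
          c₀ ^ 2 * (ε / 3) * Real.log M ^ 2 * (M ^ 2 * Real.log M ^ 4) :=
          mul_le_mul_of_nonneg_right h7 (by positivity)
      _ = _ := by ring
  calc _ ≤ (c₀ / M) ^ 2 * (ε / 3) / Real.log M ^ 4 + (c₀ / M) ^ 2 * (ε / 3) / Real.log M ^ 4 +
        (c₀ / M) ^ 2 * (ε / 3) / Real.log M ^ 4 := add_le_add (add_le_add k1 k2) k3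
    _ = _ := by ring

end Pool.Agent.Helper91.AA
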